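import Pool.Agent.W2helper58.GF.Stm

set_option autoImplicit false

/-!
# Project GF, piece D: counting circuits
-/

namespace Pool.Agent.W2helper86.GF

open Pool.Agent.NPC Pool.Agent.H620R2.Gauge Pool.Agent.W2helper58.GF

/-! ### short lists as functions -/

theorem filterMap_ofFn {α : Type} (l : List α) (k : ℕ) (h : l.length ≤ k) :
    (List.ofFn (fun i : Fin k => l[(i : ℕ)]?)).filterMap id = l := by
  have h1 : List.ofFn (fun i : Fin k => l[(i : ℕ)]?)
      = l.map some ++ List.replicate (k - l.length) none := by
    apply List.ext_getElem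
    · simp
      omega
    · intro i h2 h3
      rw [List.getElem_ofFn]
      by_cases hi : i < l.length
      · rw [List.getElem_append_left (by simpa using hi)]
        simp [hi]
      · rw [List.getElem_append_right (by simpa using hi)]
        simp only [List.getElem_replicate]
        exact List.getElem?_eq_none (by omega)
  rw [h1, List.filterMap_append, List.filterMap_map]
  have h2 : (List.replicate (k - l.length) (none : Option α)).filterMap id = [] := by
    induction (k - l.length) with
    | zero => rfl
    | succ n ih => rw [List.replicate_succ, List.filterMap_cons_none rfl, ih]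
  rw [h2, List.append_nil]
  show List.filterMap (id ∘ some) l = l
  have : (id ∘ some : α → Option α) = some := rfl
  rw [this, List.filterMap_some]

theorem length_filterMap_ofFn {α : Type} (k : ℕ) (f : Fin k → Option α) :
    ((List.ofFn f).filterMap id).length ≤ k := by
  refine (List.length_filterMap_le _ _).trans ?_
  simp

/-! ### normal forms -/

abbrev WireN (m : ℕ) : Type := Option (Fin m ⊕ Fin m) × Bool

abbrev GateN (m : ℕ) : Type := (Bool × WireN m × WireN m) ⊕ (Fin (m - 1) → Option (WireN m))

abbrev CircN (m : ℕ) : Type := (Fin m → Option (GateN m)) × WireN m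

def decW {m : ℕ} (u : WireN m) : Wire :=
  ⟨match u.1 with
    | none => .const
    | some (Sum.inl i) => .input i
    | some (Sum.inr j) => .gate j, u.2⟩

def decG {m : ℕ} : GateN m → Gate
  | Sum.inl (true, u, v) => .and (decW u) (decW v)
  | Sum.inl (false, u, v) => .or (decW u) (decW v)
  | Sum.inr f => .ask (((List.ofFn f).filterMap id).map decW)

def decC {m : ℕ} (p : CircN m) : Circuit :=
  ⟨((List.ofFn p.1).filterMap id).map decG, decW p.2⟩

def normW (m : ℕ) (u : Wire) : WireN m :=
  (match u.src with
    | .const => none
    | .input i => if h : i < m then some (Sum.inl ⟨i, h⟩) else none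
    | .gate j => if h : j < m then some (Sum.inr ⟨j, h⟩) else none, u.neg)

def normG (m : ℕ) : Gate → GateN m
  | .and u v => Sum.inl (true, normW m u, normW m v)
  | .or u v => Sum.inl (false, normW m u, normW m v)
  | .ask l => Sum.inr (fun i => (l.map (normW m))[(i : ℕ)]?)

def normC (m : ℕ) (C : Circuit) : CircN m :=
  (fun i => (C.gates.map (normG m))[(i : ℕ)]?, normW m C.out)

theorem normW_val (m : ℕ) (u : Wire) (x g : List Bool) (hx : x.length ≤ m) (hg : g.length ≤ m) :
    (decW (normW m u)).val x g = u.val x g := by
  obtain ⟨src, neg⟩ := u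
  cases src with
  | const => rfl
  | input i =>
    unfold Wire.val normW decW
    by_cases h : i < m
    · simp [h, Src.val]
    · have : x[i]? = none := List.getElem?_eq_none (by omega)
      simp [h, Src.val, this]
  | gate j =>
    unfold Wire.val normW decW
    by_cases h : j < m
    · simp [h, Src.val]
    · have : g[j]? = none := List.getElem?_eq_none (by omega)
      simp [h, Src.val, this]

theorem normG_val (m : ℕ) (G : Gate) (hG : G.size ≤ m) (A : Oracle) (x g : List Bool)
    (hx : x.length ≤ m) (hg : g.length ≤ m) :
    (decG (normG m G)).val A x g = G.val A x g := by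
  cases G with
  | and u v =>
    show ((decW (normW m u)).val x g && (decW (normW m v)).val x g) = _
    rw [normW_val m u x g hx hg, normW_val m v x g hx hg]
    rfl
  | or u v =>
    show ((decW (normW m u)).val x g || (decW (normW m v)).val x g) = _
    rw [normW_val m u x g hx hg, normW_val m v x g hx hg]
    rfl
  | ask l =>
    have hl : l.length + 1 ≤ m := hG
    show A ((((List.ofFn (fun i : Fin (m - 1) => (l.map (normW m))[(i : ℕ)]?)).filterMap id).map
      decW).map (Wire.val x g)) = A (l.map (Wire.val x g))
    rw [filterMap_ofFn (l.map (normW m)) (m - 1) (by simp; omega), List.map_map, List.map_map]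
    congr 1
    apply List.map_congr_left
    intro u _
    exact normW_val m u x g hx hg

theorem foldl_norm (m : ℕ) (A : Oracle) (x : List Bool) (hx : x.length ≤ m) :
    ∀ (gs : List Gate) (g : List Bool), (∀ a ∈ gs, a.size ≤ m) → g.length + gs.length ≤ m →
      ((gs.map (normG m)).map decG).foldl (fun g a => g ++ [a.val A x g]) g
        = gs.foldl (fun g a => g ++ [a.val A x g]) g := by
  intro gs
  induction gs with
  | nil => intro g _ _; rfl
  | cons a gs ih =>
    intro g h1 h2
    rw [List.length_cons] at h2
    simp only [List.map_cons, List.foldl_cons]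
    rw [normG_val m a (h1 a (by simp)) A x g hx (by omega)]
    exact ih _ (fun b hb => h1 b (by simp [hb])) (by simp; omega)

theorem length_values (A : Oracle) (x : List Bool) :
    ∀ (gs : List Gate) (g : List Bool),
      (gs.foldl (fun g a => g ++ [a.val A x g]) g).length = g.length + gs.length := by
  intro gs
  induction gs with
  | nil => intro g; rfl
  | cons a gs ih =>
    intro g
    rw [List.foldl_cons, ih]
    simp
    omega

theorem one_le_size (G : Gate) : 1 ≤ G.size := by
  cases G with
  | and u v => exact le_rfl
  | or u v => exact le_rfl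
  | ask l => exact Nat.le_add_left 1 _

theorem size_facts : ∀ gs : List Gate, gs.length ≤ (gs.map Gate.size).sum ∧
    ∀ a ∈ gs, a.size ≤ (gs.map Gate.size).sum := by
  intro gs
  induction gs with
  | nil => simp
  | cons b gs ih =>
    obtain ⟨h1, h2⟩ := ih
    have h3 := one_le_size b
    rw [List.map_cons, List.sum_cons, List.length_cons]
    refine ⟨by omega, ?_⟩
    intro a ha
    rcases List.mem_cons.1 ha with rfl | ha
    · omega
    · have := h2 a ha
      omega

theorem norm_eval (m : ℕ) (C : Circuit) (hC : C.size ≤ m) (A : Oracle) (x : List Bool)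
    (hx : x.length = m) : (decC (normC m C)).eval A x = C.eval A x := by
  obtain ⟨h1, h2⟩ := size_facts C.gates
  have hlen : C.gates.length ≤ m := h1.trans hC
  have hgates : (decC (normC m C)).gates = (C.gates.map (normG m)).map decG := by
    show ((List.ofFn (fun i : Fin m => (C.gates.map (normG m))[(i : ℕ)]?)).filterMap id).map decG
      = _
    rw [filterMap_ofFn (C.gates.map (normG m)) m (by simpa using hlen)]
  have hval : (decC (normC m C)).values A x = C.values A x := by
    unfold Circuit.values
    rw [hgates]
    exact foldl_norm m A x hx.le C.gates [] (fun a ha => (h2 a ha).trans hC) (by simpa using hlen)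
  unfold Circuit.eval
  rw [hval]
  show (decW (normW m C.out)).val x _ = _
  apply normW_val m C.out x _ hx.le
  unfold Circuit.values
  rw [length_values]
  simpa using hlen

theorem foldl_local (A A' : Oracle) (x : List Bool) :
    ∀ (gs : List Gate) (g : List Bool), (∀ a ∈ gs, ∀ g, a.val A x g = a.val A' x g) →
      gs.foldl (fun g a => g ++ [a.val A x g]) g = gs.foldl (fun g a => g ++ [a.val A' x g]) g := by
  intro gs
  induction gs with
  | nil => intro g _; rfl
  | cons a gs ih =>
    intro g h
    rw [List.foldl_cons, List.foldl_cons, h a (by simp)]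
    exact ih _ (fun b hb => h b (by simp [hb]))

theorem dec_local {m : ℕ} (p : CircN m) (A A' : Oracle)
    (h : ∀ y : List Bool, y.length < m → A y = A' y) (x : List Bool) :
    (decC p).eval A x = (decC p).eval A' x := by
  unfold Circuit.eval Circuit.values
  rw [foldl_local A A' x (decC p).gates [] ?_]
  intro a ha g
  have hm : 0 < m := by
    by_contra hm
    have hm0 : m = 0 := by omega
    subst hm0
    simp [decC] at ha
  obtain ⟨b, -, rfl⟩ := List.mem_map.1 ha
  rcases b with ⟨c, u, v⟩ | f
  · cases c <;> rfl
  · show A _ = A' _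
    apply h
    rw [List.length_map, List.length_map]
    have := length_filterMap_ofFn (m - 1) f
    omega

theorem card_circN (m : ℕ) : Fintype.card (CircN m) ≤ 2 ^ ((m + 3) ^ 3) := by
  have hw : Fintype.card (WireN m) = 4 * m + 2 := by
    simp only [Fintype.card_prod, Fintype.card_option, Fintype.card_sum, Fintype.card_fin,
      Fintype.card_bool]
    ring
  have hg : Fintype.card (GateN m) = 2 * ((4 * m + 2) * (4 * m + 2)) + (4 * m + 2 + 1) ^ (m - 1) := by
    rw [Fintype.card_sum, Fintype.card_prod, Fintype.card_prod, Fintype.card_fun,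
      Fintype.card_option, hw, Fintype.card_bool, Fintype.card_fin]
  have hc : Fintype.card (CircN m) = (Fintype.card (GateN m) + 1) ^ m * (4 * m + 2) := by
    rw [Fintype.card_prod, Fintype.card_fun, Fintype.card_option, hw, Fintype.card_fin]
  rw [hc, hg]
  have hu : ∀ k : ℕ, 4 * k + 3 ≤ 2 ^ (k + 2) := by
    intro k
    induction k with
    | zero => norm_num
    | succ k ih =>
      have : 2 ^ (k + 1 + 2) = 2 * 2 ^ (k + 2) := by ring
      have h4 : 4 ≤ 2 ^ (k + 2) := by
        calc 4 = 2 ^ 2 := rfl
          _ ≤ 2 ^ (k + 2) := Nat.pow_le_pow_right (by norm_num) (by omega)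
      omega
  rcases Nat.eq_zero_or_pos m with h0 | h0
  · subst h0
    norm_num
  · obtain ⟨u, hu'⟩ : ∃ u, u = 4 * m + 3 := ⟨_, rfl⟩
    have h7 : 7 ≤ u := by omega
    have e1 : 4 * m + 2 + 1 = u := by omega
    have e2 : 4 * m + 2 ≤ u := by omega
    rw [e1]
    have b1 : 2 * ((4 * m + 2) * (4 * m + 2)) + 1 ≤ 2 * (u * u) := by
      have : 4 * m + 2 = u - 1 := by omega
      obtain ⟨w, rfl⟩ : ∃ w, u = w + 1 := ⟨u - 1, by omega⟩
      rw [this, Nat.add_sub_cancel]
      nlinarith
    have b2 : 2 * (u * u) ≤ 2 * u ^ (m + 1) := by
      have : u ^ 2 ≤ u ^ (m + 1) := Nat.pow_le_pow_right (by omega) (by omega)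
      nlinarith
    have b3 : u ^ (m - 1) ≤ u ^ (m + 1) := Nat.pow_le_pow_right (by omega) (by omega)
    have b4 : 3 * u ^ (m + 1) ≤ u ^ (m + 2) := by
      rw [pow_succ u (m + 1), mul_comm]
      exact Nat.mul_le_mul_left _ (by omega)
    have b5 : 2 * ((4 * m + 2) * (4 * m + 2)) + u ^ (m - 1) + 1 ≤ u ^ (m + 2) := by omega
    calc (2 * ((4 * m + 2) * (4 * m + 2)) + u ^ (m - 1) + 1) ^ m * (4 * m + 2)
        ≤ (u ^ (m + 2)) ^ m * u := Nat.mul_le_mul (Nat.pow_le_pow_left b5 m) e2
      _ = u ^ ((m + 2) * m + 1) := by rw [← pow_mul, ← pow_succ]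
      _ ≤ (2 ^ (m + 2)) ^ ((m + 2) * m + 1) := by
          apply Nat.pow_le_pow_left
          rw [hu']
          exact hu m
      _ = 2 ^ ((m + 2) * ((m + 2) * m + 1)) := by rw [← pow_mul]
      _ ≤ 2 ^ ((m + 3) ^ 3) := by
          apply Nat.pow_le_pow_right (by norm_num)
          nlinarith [Nat.zero_le (m * m * m), Nat.zero_le (m * m)]

/-- PIECE D -/
theorem p_count : P_count := by
  classical
  intro m
  refine ⟨(Finset.univ : Finset (CircN m)).image decC, ?_, ?_, ?_⟩
  · exact (Finset.card_image_le).trans (by rw [Finset.card_univ]; exact card_circN m)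
  · intro C hC A A' h x
    obtain ⟨p, -, rfl⟩ := Finset.mem_image.1 hC
    exact dec_local p A A' h x
  · intro C hC
    exact ⟨decC (normC m C), Finset.mem_image.2 ⟨_, Finset.mem_univ _, rfl⟩,
      fun A x hx => norm_eval m C hC A x hx⟩

end Pool.Agent.W2helper86.GF
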