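import Pool.Agent.W2helper58.GF.Stm
import Pool.Agent.H620R2.Gauge.A2
import Pool.Agent.H620R2.GaugeR.Seq
import Mathlib.Analysis.SpecialFunctions.Log.Base
import Mathlib.Analysis.SpecialFunctions.Pow.Asymptotics

/-! Piece E: the generator. -/

namespace Pool.Agent.W2helper58.GF

open Pool.Agent.NPC Pool.Agent.H620R2.Gauge

namespace Gn

/-- unary strings of one letter -/
theorem poly_rep {α : Type} [TEnc α] {n : α → ℕ} (hn : UPoly n) (b : Bool) :
    Poly (fun a => List.replicate (n a) b) :=
  (NPC.Poly.map (l := fun a => List.replicate (n a) ()) (F := fun _ _ => b) hn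
    (NPC.Poly.const b)).congr fun a => by simp

/-- the questions -/
def qry (y : List Bool) : List (List Bool) :=
  (List.range (unpair y).1.length).map fun j => (unpair y).2 ++
    (List.replicate (min j (unpair y).1.length) true ++
      List.replicate ((unpair y).1.length - j) false)

theorem poly_qry : Poly qry := by
  have h1 : Poly (fun p : List Bool × ℕ => (unpair p.1).1) :=
    NPC.Poly.fst (poly_unpair.comp (NPC.Poly.fst NPC.Poly.id))
  have h2 : Poly (fun p : List Bool × ℕ => (unpair p.1).2) :=
    NPC.Poly.snd (poly_unpair.comp (NPC.Poly.fst NPC.Poly.id))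
  have h3 : Poly (fun p : List Bool × ℕ => p.2) := NPC.Poly.snd NPC.Poly.id
  have h4 : UPoly (fun p : List Bool × ℕ => (unpair p.1).1.length) := UPoly.length h1
  have h5 : UPoly (fun p : List Bool × ℕ => min p.2 (unpair p.1).1.length) :=
    UPoly.of_le (NPC.Poly.min h3 (NPC.Poly.length h1)) h4 fun p => min_le_right _ _
  have h6 : UPoly (fun p : List Bool × ℕ => (unpair p.1).1.length - p.2) :=
    UPoly.of_le (NPC.Poly.sub (NPC.Poly.length h1) h3) h4 fun p => Nat.sub_le _ _
  exact NPC.Poly.map (l := fun y : List Bool => List.range (unpair y).1.length)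
    (F := fun y j => (unpair y).2 ++
      (List.replicate (min j (unpair y).1.length) true ++
        List.replicate ((unpair y).1.length - j) false))
    (NPC.Poly.range_length (NPC.Poly.fst poly_unpair))
    (NPC.Poly.append h2 (NPC.Poly.append (poly_rep h5 true) (poly_rep h6 false)))

theorem qry_eq (m : ℕ) (s : List Bool) :
    qry (pairBits (un m) s) = (List.range m).map (sadr s m) := by
  unfold qry
  rw [unpair_pairBits]
  simp only [List.length_replicate]
  apply List.map_congr_left
  intro j hj
  rw [List.mem_range] at hj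
  rw [min_eq_left hj.le]
  rfl

theorem poly_seed (K : ℕ) : Poly (fun x : List Bool => un (K * Nat.size x.length)) := by
  have h1 : UPoly (fun x : List Bool => (Nat.bits x.length).length) :=
    UPoly.length (NPC.Poly.natBits (NPC.Poly.length NPC.Poly.id))
  have h2 := poly_rep (UPoly.mul (UPoly.const K) h1) true
  refine h2.congr fun x => ?_
  rw [Nat.size_eq_bits_len]

theorem size_le (m : ℕ) (hm : 2 ≤ m) : (Nat.size m : ℝ) ≤ 2 * Real.logb 2 m := by
  have h0 : 0 < Nat.size m := Nat.size_pos.2 (by omega)
  have h1 : 2 ^ (Nat.size m - 1) ≤ m := Nat.lt_size.1 (by omega)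
  have h2 : ((Nat.size m - 1 : ℕ) : ℝ) ≤ Real.logb 2 m := by
    rw [Real.le_logb_iff_rpow_le (by norm_num) (by positivity), Real.rpow_natCast]
    exact_mod_cast h1
  have h3 : (1 : ℝ) ≤ Real.logb 2 m := by
    rw [Real.le_logb_iff_rpow_le (by norm_num) (by positivity), Real.rpow_one]
    exact_mod_cast hm
  rw [Nat.cast_sub h0] at h2
  push_cast at h2
  linarith

theorem size_lt (K : ℕ) : ∀ᶠ m : ℕ in Filter.atTop, K * Nat.size m < m := by
  have h1 := Real.isLittleO_log_id_atTop.def
    (show (0 : ℝ) < Real.log 2 / (2 * (K + 1)) by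
      have := Real.log_pos (show (1 : ℝ) < 2 by norm_num)
      positivity)
  have h2 := tendsto_natCast_atTop_atTop (R := ℝ) |>.eventually h1
  filter_upwards [h2, Filter.eventually_ge_atTop 2] with m hm hm2
  have h3 := size_le m hm2
  have hl2 := Real.log_pos (show (1 : ℝ) < 2 by norm_num)
  have hm0 : (0 : ℝ) < m := by positivity
  have hlog : 0 ≤ Real.log m := Real.log_nonneg (by exact_mod_cast (by omega : 1 ≤ m))
  simp only [id_eq, Real.norm_eq_abs, abs_of_nonneg hlog, abs_of_pos hm0] at hm
  have h4 : Real.logb 2 m ≤ m / (2 * (K + 1)) := by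
    rw [Real.logb, div_le_iff₀ hl2]
    calc Real.log m ≤ Real.log 2 / (2 * (K + 1)) * m := hm
      _ = m / (2 * (K + 1)) * Real.log 2 := by ring
  have h5 : (K : ℝ) * Nat.size m < m := by
    calc (K : ℝ) * Nat.size m ≤ K * (2 * (m / (2 * (K + 1)))) := by
          apply mul_le_mul_of_nonneg_left _ (by positivity)
          linarith
      _ = m * (K / (K + 1)) := by field_simp
      _ < m * 1 := by
          apply mul_lt_mul_of_pos_left _ hm0
          rw [div_lt_one (by positivity)]
          linarith
      _ = m := mul_one _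
  exact_mod_cast h5

end Gn

theorem p_gen : P_gen := by
  intro K A h
  refine ⟨fun x => un (K * Nat.size x.length), fun y => (Gn.qry y).map A,
    IsFP.of_poly (Gn.poly_seed K),
    IsFP.tt (H := fun p : List Bool × List Bool => p.2) Gn.poly_qry (NPC.Poly.snd NPC.Poly.id),
    ?_, 2 * K, ?_⟩
  · intro m s hs
    simp only [Gn.qry_eq]
    simp
  · have hlen : ∀ m : ℕ, (un (K * Nat.size (un m).length)).length = K * Nat.size m := by
      intro m
      simp
    filter_upwards [h, Gn.size_lt K, Filter.eventually_ge_atTop 2] with m hm hlt hm2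
    simp only [hlen]
    refine ⟨?_, hlt, ?_⟩
    · have h1 := Gn.size_le m hm2
      push_cast
      nlinarith [Nat.cast_nonneg (α := ℝ) K]
    · intro C hC
      by_contra hcon
      apply hm
      refine ⟨C, hC, ?_⟩
      rw [not_le] at hcon
      unfold pr at hcon
      have key : ∀ s : Fin (K * Nat.size m) → Bool,
          (Gn.qry (pairBits (un m) (List.ofFn s))).map A =
            List.ofFn (fun j : Fin m => A (sadr (List.ofFn s) m j)) := by
        intro s
        rw [Gn.qry_eq]
        apply List.ext_getElem
        · simp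
        · intro i h1 h2
          simp
      simp only [key] at hcon
      exact hcon

end Pool.Agent.W2helper58.GF
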