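import Pool.Agent.W2helper58.GF.Stm
import Pool.Agent.H620R2.Gauge2.Null
import Mathlib.Analysis.SpecificLimits.Basic

/-! Piece C: the Borel–Cantelli lemma for the null sets of a gauge. -/

namespace Pool.Agent.W2helper58.GF

open Pool.Agent.NPC Pool.Agent.H620R2.Gauge

theorem p_limsup : P_limsup := by
  intro f E h δ hδ
  obtain ⟨m0, hm0⟩ := Filter.eventually_atTop.1 h
  obtain ⟨m1, hm1, hm1δ⟩ : ∃ m1 ≥ m0, 2 * (1 / 2 : ℝ) ^ m1 ≤ δ := by
    obtain ⟨n, hn⟩ := exists_pow_lt_of_lt_one (show (0 : ℝ) < δ / 2 by positivity)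
      (show (1 / 2 : ℝ) < 1 by norm_num)
    refine ⟨max m0 n, le_max_left _ _, ?_⟩
    have h1 : (1 / 2 : ℝ) ^ (max m0 n) ≤ (1 / 2) ^ n :=
      pow_le_pow_of_le_one (by norm_num) (by norm_num) (le_max_right _ _)
    linarith
  choose! S hS hsum using hm0
  refine ⟨⋃ k : ℕ, S (m1 + k), ?_, ?_⟩
  · intro A hA
    obtain ⟨m, hm, hAm⟩ := (Filter.frequently_atTop.1 hA) m1
    obtain ⟨σ, hσ, hE⟩ := hS m (le_trans hm1 hm) A hAm
    refine ⟨σ, Set.mem_iUnion.2 ⟨m - m1, ?_⟩, hE⟩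
    rwa [Nat.add_sub_cancel' hm]
  · refine (ENNReal.tsum_iUnion_le_tsum (fun σ : List Bool =>
      ENNReal.ofReal (2 ^ (f σ.length - σ.length))) (fun k => S (m1 + k))).trans ?_
    refine (ENNReal.tsum_le_tsum (fun k => hsum (m1 + k) (by omega))).trans ?_
    have hs : Summable (fun k : ℕ => (1 / 2 : ℝ) ^ (m1 + k)) := by
      simp_rw [pow_add]
      exact summable_geometric_two.mul_left _
    rw [← ENNReal.ofReal_tsum_of_nonneg (fun k => by positivity) hs]
    apply ENNReal.ofReal_le_ofReal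
    simp_rw [pow_add]
    rw [tsum_mul_left, tsum_geometric_two]
    linarith

end Pool.Agent.W2helper58.GF
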